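import Pool.Agent.Lib.HL59.Calc
import Pool.Agent.Lib.TB.B_TCA

/-! The trace of a parallel field killed by the curvature is constant. -/

open scoped Classical Topology ContDiff ComplexOrder Matrix
open Set Complex Filter MeasureTheory Metric

noncomputable section

namespace Pool.Agent.Lib.HL59

open Pool.Agent.Lib.SV (E)
open Pool.Agent.Lib.HS32

variable {n : ℕ}

/-- The smallest eigenvalue of a form is attained. -/
theorem min_eig (M : Mf n) [M.Cpt] {h b : M.Fam (Mat n)} (hh : M.Met h) (hb : M.Form b) :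
    M.Le 0 b ∨ ∃ c : ℝ, c < 0 ∧ M.Le (c • h) b ∧ ∃ e ∈ M.C, ∃ z ∈ e.target, ∃ w : E n, w ≠ 0 ∧
      (b e z - c • h e z) *ᵥ w = 0 := by
  by_cases h0 : M.Le 0 b
  · exact Or.inl h0
  right
  set S : Set ℝ := {c | M.Le (c • h) b} with hS
  obtain ⟨C, -, -, hC⟩ := (mBD n M h hh).1 b hb
  have ne : S.Nonempty := ⟨-C, by rw [hS, mem_ofPred_eq, neg_smul]; exact hC⟩
  have up : ∀ c ∈ S, c < 0 := fun c hc => by
    by_contra hn
    refine h0 (Mf.Le.trans ?_ hc)
    have := hh.le_smul (a := 0) (b := c) (not_lt.1 hn)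
    rwa [zero_smul] at this
  have cl : IsClosed S := by
    have : S = ⋂ e ∈ M.C, ⋂ z ∈ e.target, ⋂ v : E n,
        {c : ℝ | 0 ≤ star v ⬝ᵥ (b e z - c • h e z) *ᵥ v} := by
      ext c
      simp only [hS, mem_ofPred_eq, mem_iInter]
      exact ⟨fun a e he z hz v => (a e he z hz).dotProduct_mulVec_nonneg v, fun a e he z hz =>
        Matrix.PosSemidef.of_dotProduct_mulVec_nonneg
          ((hb.herm e he z hz).sub (Mf.herm_rsmul (hh.herm e he z hz) c)) (a e he z hz)⟩
    rw [this]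
    refine isClosed_biInter fun e _ => isClosed_biInter fun z _ => isClosed_iInter fun v => ?_
    exact isClosed_le continuous_const (by fun_prop)
  have bd : BddAbove S := ⟨0, fun c hc => (up c hc).le⟩
  have mem := cl.csSup_mem ne bd
  refine ⟨sSup S, up _ mem, mem, ?_⟩
  by_contra hn
  push Not at hn
  have mt : M.Met (b - sSup S • h) :=
    ⟨hb.sub (hh.toForm.smul _), fun e he z hz => by
      have p : (b e z - sSup S • h e z).PosSemidef := mem e he z hz
      refine Matrix.PosDef.of_dotProduct_mulVec_pos p.1 fun v hv => ?_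
      refine lt_of_le_of_ne (p.dotProduct_mulVec_nonneg v) fun a => hn e he z hz v hv ?_
      exact (p.dotProduct_mulVec_zero_iff v).1 a.symm⟩
  obtain ⟨D, D0, hD, -⟩ := (mBD n M _ mt).1 h hh.toForm
  have : sSup S + D⁻¹ ∈ S := fun e he z hz => by
    have a := Mf.psd_rsmul (hD e he z hz) (inv_pos.2 D0).le
    have e1 : D⁻¹ • ((D • (b - sSup S • h)) e z - h e z) = b e z - ((sSup S + D⁻¹) • h) e z := by
      simp only [Pi.smul_apply, Pi.sub_apply, smul_sub, smul_smul, add_smul]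
      rw [inv_mul_cancel₀ D0.ne', ← mul_assoc, inv_mul_cancel₀ D0.ne', one_mul, one_smul]
      abel
    rwa [e1] at a
  have := le_csSup bd this
  linarith [inv_pos.2 D0]

/-- A plurisubharmonic function on a compact Kähler manifold is locally constant. -/
theorem psh_const (M : Mf n) [M.Cpt] {H : M.Fam (Mat n)} (hH : M.Kae H) {s : M.X → ℝ}
    (hs : M.Sm s) (hp : M.Le 0 (M.hs s)) : M.All fun e z => ∀ k, dz k (M.lc s e) z = 0 := by
  obtain ⟨-, f1, f2, -, f3, -⟩ := mMU n M H hH.toMet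
  obtain ⟨g1, g2, -⟩ := (mGRN n M).2 H s s hH hs hs
  obtain ⟨l1, l2, l3, -⟩ := (mLAP n M s s hs hs).2.2 H hH.toMet
  have z : ∀ f : M.X → ℝ, Continuous f → (∀ x, 0 ≤ f x) → ∫ x, f x ∂M.mu H = 0 → ∀ x, f x = 0 :=
    fun f hf h0 hi x => congrFun ((hf.ae_eq_iff_eq (M.mu H) continuous_zero).1
      ((integral_eq_zero_iff_of_nonneg h0 (f3 ℝ f hf)).1 hi)) x
  have a1 := z _ l1.continuous (fun x => hH.toMet.tr_nonneg hp x) g1
  have a2 := z _ l2.continuous (fun x => (l3 x 0).2.2.2.2.2.2.1) (by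
    simp only [a1, mul_zero, integral_zero] at g2
    linarith)
  intro e he y hy k
  obtain ⟨ρ, ρ0, hρ⟩ := nhds_basis_closedBall.mem_iff.1 (e.open_target.mem_nhds hy)
  obtain ⟨C, -, hC⟩ := (mBD n M H hH.toMet).2.2.2 e he y ρ hρ
  rw [dz_congr (g := fun _ => (s (e.symm y) : ℂ)) ?_, dz_const]
  filter_upwards [closedBall_mem_nhds y ρ0] with w hw
  have := hC s 0 hs le_rfl (fun x => by rw [a2 x]; norm_num) w hw y (mem_closedBall_self ρ0.le)
  rw [mul_zero, zero_mul, abs_nonpos_iff, sub_eq_zero] at this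
  exact congrArg (fun t : ℝ => (t : ℂ)) this

theorem nab_gs {h : E n → Mat n} {z : E n} (hp : (h z).PosDef) (k : Fin n) :
    nab (gs h) k h z = (1 / 2 : ℝ) • (h z * tm h k z) := by
  rw [nab, gs, Matrix.mul_sub, gam, Matrix.mul_nonsing_inv_cancel_left _ _ hp.det_pos.ne'.isUnit,
    Matrix.mul_smul]
  abel

theorem psd_xi {h Q : Mat n} (hp : h.PosDef) (hq : (h * Q).PosSemidef) : (Q * h⁻¹).PosSemidef := by
  have := hq.conjTranspose_mul_mul_same h⁻¹
  rwa [hp.inv.1.eq, Matrix.nonsing_inv_mul_cancel_left _ _ hp.det_pos.ne'.isUnit] at this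

theorem hy_gs {h Q : E n → Mat n} {z : E n} (hh : SmM h z) (hQ : SmM Q z)
    (ev : ∀ᶠ w in 𝓝 z, (h w).PosDef ∧ Pde h Q w) (hq : (h z * Q z).PosSemidef)
    (ht : ∀ k l, ths h k l z * Q z = 0) : Hy h (fun w => Q w * (h w)⁻¹) (gs h) z := by
  have hp := ev.self_of_nhds.1
  have h0 : (h z).det ≠ 0 := hp.det_pos.ne'
  have sy := (TB.T82.sys hh hQ ev).self_of_nhds
  refine ⟨hh, hQ.mul (hh.inv h0), TB.T82.sm_gs hh h0, hp.1, (psd_xi hp hq).1, fun k i j => ?_,
    fun k i j => ?_, sy.1, sy.2, fun k l => ?_⟩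
  · simp only [gs, tm, Matrix.sub_apply, Matrix.smul_apply, Matrix.of_apply, real_smul]
    push_cast
    ring
  · rw [nab_gs hp, nab_gs hp]
    simp only [Matrix.smul_apply, Matrix.mul_apply, tm, Matrix.of_apply, ← smul_neg,
      ← Finset.sum_neg_distrib]
    congr 1
    exact Finset.sum_congr rfl fun r _ => by ring
  · have := ht k l
    rw [ths, Matrix.neg_mul, neg_eq_zero] at this
    rw [← Matrix.mul_assoc, this, Matrix.zero_mul]

theorem ham (n : ℕ) (M : Mf n) [M.Cpt] (H h Q : M.Fam (Mat n)) (hH : M.Kae H) (hh : M.Met h)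
    (hQ : M.End Q) (ha : M.All fun e z => (h e z * Q e z).PosSemidef ∧ Pde (h e) (Q e) z ∧
      ∀ k l, ths (h e) k l z * Q e z = 0) :
    M.All fun e z => ∀ k, (tm (h e) k z * Q e z).trace = 0 := by
  have iv := mINV n M h hh
  have fm : M.Form fun e z => h e z * Q e z :=
    ⟨iv.2.2.2.2.2.1 Q hQ, fun e he z hz => (ha e he z hz).1.1⟩
  set s : M.X → ℝ := M.tr h fun e z => h e z * Q e z with hs
  have ss : M.Sm s := (iv.1 _ fm.toTen).2.1
  have hy : M.All fun e z => Hy (h e) (fun w => Q e w * (h e w)⁻¹) (gs (h e)) z :=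
    fun e he z hz => hy_gs (hh.sm e he z hz) (hQ.sm e he z hz)
      ((e.open_target.eventually_mem hz).mono fun w hw =>
        ⟨hh.pos e he w hw, (ha e he w hw).2.1⟩) (ha e he z hz).1 (ha e he z hz).2.2
  have rp : M.All fun e z => M.lc s e z = (Q e z * (h e z)⁻¹ * h e z).trace := fun e he z hz => by
    have u := (hh.pos e he z hz).det_pos.ne'.isUnit
    have a := (iv.2.1 _ fm e he z hz).1
    rw [Matrix.nonsing_inv_mul_cancel_left _ _ u] at a
    show M.lc s e z = (Q e z * (h e z)⁻¹ * h e z).trace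
    rw [Matrix.nonsing_inv_mul_cancel_right _ _ u]
    exact a
  have hs2 : M.All fun e z => M.hs s e z = hess (fun y => (Q e y * (h e y)⁻¹ * h e y).trace) z :=
    fun e he z hz => hess_congr (Mf.AllOn.ev rp he hz)
  have ps : M.Le 0 (M.hs s) := by
    rcases min_eig M hh ((mHES n M).1 s ss).toForm with a | ⟨c, c0, hc, e, he, z, hz, w, hw, h0⟩
    · exact a
    · refine absurd (ham_loc (Mf.AllOn.ev hy he hz) (psd_xi (hh.pos e he z hz) (ha e he z hz).1)
        (hh.pos e he z hz) hw ?_ ?_) c0.ne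
      · filter_upwards [e.open_target.eventually_mem hz] with y hy
        rw [← hs2 e he y hy]
        exact hc e he y hy
      · rw [← hs2 e he z hz]
        exact h0
  intro e he z hz k
  have a := psh_const M hH ss ps e he z hz k
  rw [dz_congr (Mf.AllOn.ev rp he hz), dz_tr (hy e he z hz), nab_gs (hh.pos e he z hz),
    Matrix.mul_smul, Matrix.trace_smul, Matrix.mul_assoc,
    Matrix.nonsing_inv_mul_cancel_left _ _ (hh.pos e he z hz).det_pos.ne'.isUnit,
    Matrix.trace_mul_comm] at a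
  simpa using a

end Pool.Agent.Lib.HL59
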