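import Pool.Agent.Lib.HS32.MAll

/-! Fields that are parallel for a symmetric connection: the calculus and the maximum
principle in coordinates. -/

open scoped Classical Topology ContDiff ComplexOrder Matrix
open Set Complex Filter

noncomputable section

namespace Pool.Agent.Lib.HL59

open Pool.Agent.Lib.SV (E)
open Pool.Agent.Lib.HS32

variable {n : ℕ} {h ξ Φ : E n → Mat n} {A : Fin n → E n → Mat n} {z : E n}

/-- The covariant derivative of type `(1,0)` of a form. -/
def nab (A : Fin n → E n → Mat n) (k : Fin n) (Φ : E n → Mat n) (y : E n) : Mat n :=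
  dM k Φ y - Φ y * A k y

/-- The covariant derivative of type `(0,1)` of a form. -/
def nbb (A : Fin n → E n → Mat n) (l : Fin n) (Φ : E n → Mat n) (y : E n) : Mat n :=
  dMb l Φ y - (A l y)ᴴ * Φ y

/-- The degenerate Laplace operator on forms. -/
def lx (ξ : E n → Mat n) (A : Fin n → E n → Mat n) (Φ : E n → Mat n) (y : E n) : Mat n :=
  ∑ k, ∑ l, ξ y k l • nbb A l (nab A k Φ) y

/-- The hypotheses at one point. -/
structure Hy (h ξ : E n → Mat n) (A : Fin n → E n → Mat n) (y : E n) : Prop where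
  sh : SmM h y
  sx : SmM ξ y
  sa : ∀ k, SmM (A k) y
  hh : (h y).IsHermitian
  hx : (ξ y).IsHermitian
  sym : ∀ k i j, A k y i j = A j y i k
  asy : ∀ k i j, nab A k h y i j = -nab A j h y i k
  p1 : ∀ k, dM k ξ y = -(A k y * ξ y)
  p2 : ∀ l, dMb l ξ y = -(ξ y * (A l y)ᴴ)
  tz : ∀ k l, dMb l (A k) y * ξ y = 0

theorem sm_nab (hΦ : SmM Φ z) (k : Fin n) (hA : SmM (A k) z) : SmM (nab A k Φ) z :=
  (hΦ.dM k).sub (hΦ.mul hA)

theorem smM_sum_smul {f : Fin n → E n → ℂ} {T : Fin n → E n → Mat n}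
    (hf : ∀ k, ContDiffAt ℝ ∞ (f k) z) (hT : ∀ k, SmM (T k) z) :
    SmM (fun y => ∑ k, f k y • T k y) z :=
  SmM.sum fun k _ => SmM.smul (hf k) (hT k)

theorem dMb_sum {T : Fin n → E n → Mat n} (hT : ∀ k, SmM (T k) z) (l : Fin n) :
    dMb l (fun y => ∑ k, T k y) z = ∑ k, dMb l (T k) z := by
  ext i j
  simp only [dMb_apply, Matrix.sum_apply]
  exact dzb_sum fun k _ => (hT k).diff i j

theorem dM_sum {T : Fin n → E n → Mat n} (hT : ∀ k, SmM (T k) z) (l : Fin n) :
    dM l (fun y => ∑ k, T k y) z = ∑ k, dM l (T k) z := by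
  ext i j
  simp only [dM_apply, Matrix.sum_apply]
  exact dz_sum fun k _ => (hT k).diff i j

/-! ### The maximum principle -/

theorem trace_psd {S T : Mat n} (hS : S.PosSemidef) (hT : T.PosSemidef) :
    0 ≤ (S * T).trace.re := by
  obtain ⟨W, rfl⟩ := Mf.psd_factor hS
  rw [Matrix.mul_assoc, Matrix.trace_mul_comm]
  exact (Complex.nonneg_iff.1 (hT.mul_mul_conjTranspose_same W).trace_nonneg).1

theorem mp_loc (hΦ : ∀ᶠ y in 𝓝 z, SmM Φ y ∧ (Φ y).PosSemidef) (hA : ∀ k, SmM (A k) z)
    (hx : (ξ z).PosSemidef) {w : E n} (h0 : Φ z *ᵥ w = 0) :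
    0 ≤ (star w ⬝ᵥ lx ξ A Φ z *ᵥ w).re := by
  set W : E n → Mat n := fun y => 1 - ∑ k, (y k - z k) • A k z with hW
  have cc : ∀ (k : Fin n) (y : E n), ContDiffAt ℝ ∞ (fun y : E n => y k - z k) y := fun k y =>
    (contDiffAt_apply ℝ ℂ k y).sub contDiffAt_const
  have sW : ∀ y, SmM W y := fun y =>
    (smM_const 1).sub (smM_sum_smul (fun k => cc k y) fun k => smM_const _)
  have d1 : ∀ k y, dM k W y = -A k z := fun k y => by
    rw [hW, dM_sub (smM_const 1) (smM_sum_smul (fun k => cc k y) fun k => smM_const _), dM_const,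
      dM_sum fun r => SmM.smul (cc r y) (smM_const _), zero_sub, neg_inj]
    have : ∀ r, dM k (fun y : E n => (y r - z r) • A r z) y = if r = k then A r z else 0 := by
      intro r
      rw [dM_smul (cd_diff (cc r y)) (smM_const _), dM_const, smul_zero, add_zero,
        dz_sub (cd_diff (contDiffAt_apply ℝ ℂ r y)) (differentiableAt_const _), dz_coord, dz_const]
      split_ifs <;> simp
    simp [this]
  have d2 : ∀ k y, dMb k W y = 0 := fun k y => by
    rw [hW, dMb_sub (smM_const 1) (smM_sum_smul (fun k => cc k y) fun k => smM_const _), dMb_const,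
      dMb_sum fun r => SmM.smul (cc r y) (smM_const _), zero_sub, neg_eq_zero]
    refine Finset.sum_eq_zero fun r _ => ?_
    rw [dMb_smul (cd_diff (cc r y)) (smM_const _), dMb_const, smul_zero, add_zero,
      dzb_sub (cd_diff (contDiffAt_apply ℝ ℂ r y)) (differentiableAt_const _), dzb_coord, dzb_const]
    simp
  have W0 : W z = 1 := by simp [hW]
  set R : Mat n := Matrix.vecMulVec w (star w) with hR
  have tR : ∀ T : Mat n, (R * T).trace = star w ⬝ᵥ T *ᵥ w := fun T => by
    simp only [hR, Matrix.trace, Matrix.diag, Matrix.mul_apply, Matrix.vecMulVec_apply, dotProduct,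
      Matrix.mulVec, Finset.mul_sum]
    rw [Finset.sum_comm]
    exact Finset.sum_congr rfl fun i _ => Finset.sum_congr rfl fun j _ => by ring
  set Ψ : E n → Mat n := fun y => (W y)ᴴ * Φ y * W y with hΨ
  have sΨ : ∀ᶠ y in 𝓝 z, SmM Ψ y := hΦ.mono fun y hy => ((sW y).ct.mul hy.1).mul (sW y)
  set F : E n → ℂ := fun y => (R * Ψ y).trace with hF
  have sF : ContDiffAt ℝ ∞ F z := ((smM_const R).mul sΨ.self_of_nhds).trace
  have pF : ∀ᶠ y in 𝓝 z, 0 ≤ F y := hΦ.mono fun y hy => by
    show 0 ≤ (R * ((W y)ᴴ * Φ y * W y)).trace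
    rw [tR]
    exact (hy.2.conjTranspose_mul_mul_same (W y)).dotProduct_mulVec_nonneg w
  have F0 : F z = 0 := by
    show (R * ((W z)ᴴ * Φ z * W z)).trace = 0
    rw [tR, W0, Matrix.conjTranspose_one, Matrix.one_mul, Matrix.mul_one, h0, dotProduct_zero]
  have mx : IsLocalMax (fun y => (-F y).re) z := pF.mono fun y hy => by
    show (-F y).re ≤ (-F z).re
    rw [F0, neg_re, neg_re, zero_re, neg_zero, neg_nonpos]
    exact (Complex.nonneg_iff.1 hy).1
  have ps := (mMAXE n (fun y => (-F y).re) z (cd_re sF.neg) mx).1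
  have eF : (fun y => (((-F y).re : ℝ) : ℂ)) =ᶠ[𝓝 z] fun y => -F y := pF.mono fun y hy => by
    apply Complex.ext
    · simp
    · simp [← (Complex.nonneg_iff.1 hy).2]
  rw [hess_congr eF, hess_neg, neg_neg] at ps
  have hz := hΦ.self_of_nhds
  have h0' : star w ᵥ* Φ z = 0 := by
    rw [← hz.2.1.eq, ← Matrix.star_mulVec, h0, star_zero]
  have hs : ∀ k l, hess F z l k = star w ⬝ᵥ nbb A l (nab A k Φ) z *ᵥ w := fun k l => by
    have e1 : dz k F =ᶠ[𝓝 z] fun y => (R * ((W y)ᴴ * (dM k Φ y * W y - Φ y * A k z))).trace := by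
      filter_upwards [hΦ, sΨ] with y hy sy
      rw [hF, dz_trace ((smM_const R).mul sy), dM_mul (smM_const R) sy, dM_const, Matrix.zero_mul,
        zero_add, hΨ, dM_mul ((sW y).ct.mul hy.1) (sW y), dM_mul (sW y).ct hy.1, dM_ct (sW y), d2,
        d1]
      simp only [Matrix.conjTranspose_zero, Matrix.zero_mul, zero_add, Matrix.mul_neg,
        Matrix.mul_assoc, sub_eq_add_neg]
      simp only [Matrix.mul_add, Matrix.mul_neg]
    have s1 : SmM (fun y => dM k Φ y * W y) z := (hz.1.dM k).mul (sW z)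
    have s2 : SmM (fun y => Φ y * A k z) z := hz.1.mul (smM_const _)
    rw [hess_apply, dzb_congr e1, dzb_trace ((smM_const R).mul ((sW z).ct.mul (s1.sub s2))),
      dMb_mul (smM_const R) ((sW z).ct.mul (s1.sub s2)), dMb_const, Matrix.zero_mul, zero_add,
      dMb_mul (sW z).ct (s1.sub s2), dMb_ct (sW z), d1, dMb_sub s1 s2,
      dMb_mul (hz.1.dM k) (sW z), dMb_mul hz.1 (smM_const _), d2, dMb_const, W0, tR, nbb]
    have e2 : dMb l (nab A k Φ) z =
        dMb l (dM k Φ) z - (dMb l Φ z * A k z + Φ z * dMb l (A k) z) := by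
      rw [← dMb_mul hz.1 (hA k)]
      exact dMb_sub (hz.1.dM k) (hz.1.mul (hA k))
    have e3 : star w ⬝ᵥ (Φ z * dMb l (A k) z) *ᵥ w = 0 := by
      rw [← Matrix.mulVec_mulVec, Matrix.dotProduct_mulVec, h0', zero_dotProduct]
    rw [e2, nab]
    simp only [Matrix.conjTranspose_neg, Matrix.conjTranspose_one, Matrix.one_mul, Matrix.mul_one,
      Matrix.mul_zero, add_zero, Matrix.neg_mul, Matrix.add_mulVec, Matrix.sub_mulVec,
      Matrix.neg_mulVec, dotProduct_add, dotProduct_sub, dotProduct_neg, e3]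
    ring
  have e4 : star w ⬝ᵥ lx ξ A Φ z *ᵥ w = (ξ z * hess F z).trace := by
    simp only [lx, Matrix.sum_mulVec, dotProduct_sum, Matrix.smul_mulVec, dotProduct_smul,
      Matrix.trace, Matrix.diag, Matrix.mul_apply, hs, smul_eq_mul]
  rw [e4]
  exact trace_psd hx ps

/-! ### The trace and its Hessian -/

theorem dz_tr (hy : Hy h ξ A z) (k : Fin n) :
    dz k (fun y => (ξ y * h y).trace) z = (ξ z * nab A k h z).trace := by
  rw [dz_trace (hy.sx.mul hy.sh), dM_mul hy.sx hy.sh, hy.p1, nab, Matrix.mul_sub, Matrix.trace_add,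
    Matrix.trace_sub, Matrix.neg_mul, Matrix.trace_neg, Matrix.mul_assoc,
    Matrix.trace_mul_comm (A k z), Matrix.mul_assoc]
  ring

theorem alg_lx {ξ : Mat n} {c K : Fin n → Fin n → Mat n} (hx : ξ.IsHermitian)
    (ac : ∀ k l i j, c k l i j = -c j l i k)
    (cm : ∀ k l, c k l = (c l k)ᴴ + K k l - (K l k)ᴴ) (sK : ∀ k l i j, K k l i j = K j l i k)
    (Kx : ∀ k l, K k l * ξ = 0) (i j : Fin n) :
    (∑ k, ∑ l, ξ k l • c k l) i j = (ξ * c j i).trace := by
  have z1 : ∑ k, ∑ l, ξ k l * K j l i k = 0 := by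
    rw [Finset.sum_comm]
    refine Finset.sum_eq_zero fun l _ => ?_
    have := congrFun (congrFun (Kx j l) i) l
    rw [Matrix.mul_apply, Matrix.zero_apply] at this
    rw [← this]
    exact Finset.sum_congr rfl fun k _ => mul_comm _ _
  have z2 : ∑ k, ∑ l, ξ k l * star (K i j k l) = 0 := by
    refine Finset.sum_eq_zero fun k _ => ?_
    have := congrArg star (congrFun (congrFun (Kx i j) k) k)
    rw [Matrix.mul_apply, Matrix.zero_apply, star_zero, star_sum] at this
    rw [← this]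
    refine Finset.sum_congr rfl fun l _ => ?_
    rw [star_mul', hx.apply, mul_comm]
  have z3 : ∑ k, ∑ l, ξ k l * K j i l k = 0 := by
    have : (ξ * K j i).trace = 0 := by rw [Matrix.trace_mul_comm, Kx, Matrix.trace_zero]
    simpa only [Matrix.trace, Matrix.diag, Matrix.mul_apply] using this
  have tw : ∀ k l, c k l i j = c j i l k - K j l i k - K j i l k + 2 * star (K i j k l) := by
    intro k l
    have a1 := congrFun (congrFun (cm j l) i) k
    have a2 := congrFun (congrFun (cm j i) l) k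
    simp only [Matrix.sub_apply, Matrix.add_apply, Matrix.conjTranspose_apply] at a1 a2
    rw [ac l j k i, sK l j k i, star_neg] at a1
    rw [ac k l i j, a1, a2]
    ring
  simp only [Matrix.sum_apply, Matrix.smul_apply, smul_eq_mul, Matrix.trace, Matrix.diag,
    Matrix.mul_apply]
  have : ∀ k l, ξ k l * c k l i j = ξ k l * c j i l k - ξ k l * K j l i k - ξ k l * K j i l k +
      2 * (ξ k l * star (K i j k l)) := fun k l => by rw [tw]; ring
  simp only [this, Finset.sum_add_distrib, Finset.sum_sub_distrib, ← Finset.mul_sum, z1, z2, z3]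
  ring

theorem lx_h (ev : ∀ᶠ y in 𝓝 z, Hy h ξ A y) :
    lx ξ A h z = hess (fun y => (ξ y * h y).trace) z := by
  have hy := ev.self_of_nhds
  have sb : ∀ k, SmM (nab A k h) z := fun k => sm_nab hy.sh k (hy.sa k)
  have ex : ∀ k l, nbb A l (nab A k h) z = dMb l (dM k h) z -
      (dMb l h z * A k z + h z * dMb l (A k) z) - (A l z)ᴴ * (dM k h z - h z * A k z) := by
    intro k l
    rw [nbb, ← dMb_mul hy.sh (hy.sa k), ← dMb_sub (hy.sh.dM k) (hy.sh.mul (hy.sa k))]
    rfl
  have hb : ∀ k, dMb k h z = (dM k h z)ᴴ := fun k => dMb_herm hy.sh (ev.mono fun y a => a.hh)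
  have hbb : ∀ k l, (dMb k (dM l h) z)ᴴ = dMb l (dM k h) z := fun k l => by
    rw [← dM_ct (hy.sh.dM l), ← dM_dMb hy.sh]
    refine dM_congr (ev.eventually_nhds.mono fun y a => ?_)
    exact (dMb_herm a.self_of_nhds.sh (a.mono fun y a => a.hh)).symm
  ext i j
  rw [lx, alg_lx (c := fun k l => nbb A l (nab A k h) z)
    (K := fun k l => -(h z * dMb l (A k) z)) hy.hx]
  · rw [hess_apply, dzb_congr (g := fun y => (ξ y * nab A j h y).trace)
      (ev.mono fun y a => dz_tr a j), dzb_trace (hy.sx.mul (sb j)), dMb_mul hy.sx (sb j), hy.p2,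
      nbb, Matrix.mul_sub, Matrix.neg_mul, Matrix.mul_assoc, sub_eq_add_neg, add_comm]
  · intro k l i j
    have a : dMb l (nab A k h) z i j = -dMb l (nab A j h) z i k := by
      rw [dMb_apply, dMb_apply, ← dzb_neg]
      exact dzb_congr (ev.mono fun y a => a.asy k i j)
    simp only [nbb, Matrix.sub_apply, Matrix.mul_apply, a, hy.asy k _ j, mul_neg,
      Finset.sum_neg_distrib]
    ring
  · intro k l
    rw [ex, ex]
    simp only [Matrix.conjTranspose_sub, Matrix.conjTranspose_add, Matrix.conjTranspose_mul,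
      Matrix.conjTranspose_neg, hbb, hb, Matrix.conjTranspose_conjTranspose, hy.hh.eq,
      Matrix.mul_sub, Matrix.mul_assoc]
    abel
  · intro k l i j
    have a : ∀ r, dMb l (A k) z r j = dMb l (A j) z r k := fun r =>
      dzb_congr (ev.mono fun y a => a.sym k r j)
    simp only [Matrix.neg_apply, Matrix.mul_apply, a]
  · intro k l
    rw [Matrix.neg_mul, Matrix.mul_assoc, hy.tz, Matrix.mul_zero, neg_zero]

/-- If a form is parallel along the image of `ξ`, the operator kills it. -/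
theorem lx_zero (hy : Hy h ξ A z) (hΦ : SmM Φ z)
    (hg : ∀ᶠ y in 𝓝 z, ∀ m, ∑ k, ξ y k m • nab A k Φ y = 0) : lx ξ A Φ z = 0 := by
  have g0 := hg.self_of_nhds
  have sb : ∀ k, SmM (nab A k Φ) z := fun k => sm_nab hΦ k (hy.sa k)
  have a1 : ∀ l, ∑ k, ξ z k l • ((A l z)ᴴ * nab A k Φ z) = 0 := fun l => by
    have := congrArg (fun T => (A l z)ᴴ * T) (g0 l)
    simpa only [Matrix.mul_sum, Matrix.mul_smul, Matrix.mul_zero] using this
  have a2 : ∀ l, ∑ k, ξ z k l • dMb l (nab A k Φ) z = 0 := fun l => by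
    have e : dMb l (fun y => ∑ k, ξ y k l • nab A k Φ y) z = 0 := by
      rw [dMb_congr (T := fun _ => 0) (hg.mono fun y a => a l), dMb_const]
    rw [dMb_sum fun k => SmM.smul (hy.sx k l) (sb k)] at e
    simp only [fun k => dMb_smul (k := l) (hy.sx.diff k l) (sb k), Finset.sum_add_distrib] at e
    have e2 : ∑ k, dzb l (fun y => ξ y k l) z • nab A k Φ z = 0 := by
      have : ∀ k, dzb l (fun y => ξ y k l) z = ∑ r, -(A l z)ᴴ r l * ξ z k r := fun k => by
        rw [← dMb_apply, hy.p2, Matrix.neg_apply, Matrix.mul_apply, ← Finset.sum_neg_distrib]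
        exact Finset.sum_congr rfl fun r _ => by ring
      simp only [this, Finset.sum_smul, mul_smul]
      rw [Finset.sum_comm]
      refine Finset.sum_eq_zero fun r _ => ?_
      rw [← Finset.smul_sum, g0 r, smul_zero]
    rwa [e2, zero_add] at e
  rw [lx, Finset.sum_comm]
  refine Finset.sum_eq_zero fun l _ => ?_
  simp only [nbb, smul_sub, Finset.sum_sub_distrib, a1, a2, sub_zero]

/-- The curvature of type `(2,0)`. -/
def r20 (A : Fin n → E n → Mat n) (k p : Fin n) (y : E n) : Mat n :=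
  dM k (A p) y - dM p (A k) y + A k y * A p y - A p y * A k y

/-- The second covariant derivative of type `(2,0)`. -/
def d20 (A : Fin n → E n → Mat n) (h : E n → Mat n) (k p : Fin n) (y : E n) : Mat n :=
  nab A k (nab A p h) y - ∑ r, A k y r p • nab A r h y

theorem r20_mul (ev : ∀ᶠ y in 𝓝 z, Hy h ξ A y) (k p : Fin n) : r20 A k p z * ξ z = 0 := by
  have hy := ev.self_of_nhds
  have a := dM_dM hy.sx k p
  rw [dM_congr (ev.mono fun y a => a.p1 p), dM_congr (ev.mono fun y a => a.p1 k), dM_neg, dM_neg,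
    dM_mul (hy.sa p) hy.sx, dM_mul (hy.sa k) hy.sx, hy.p1, hy.p1, neg_inj] at a
  simp only [r20, Matrix.sub_mul, Matrix.add_mul, Matrix.mul_assoc]
  simp only [Matrix.mul_neg] at a
  rw [eq_sub_of_add_eq a]
  abel

theorem bianchi (ev : ∀ᶠ y in 𝓝 z, Hy h ξ A y) (p k j i : Fin n) :
    r20 A p k z i j + r20 A k j z i p + r20 A j p z i k = 0 := by
  have hy := ev.self_of_nhds
  have a : ∀ p k j, dM p (A k) z i j = dM p (A j) z i k := fun p k j =>
    dz_congr (ev.mono fun y a => a.sym k i j)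
  have b : ∀ p k j, (A p z * A k z) i j = (A p z * A j z) i k := fun p k j => by
    simp only [Matrix.mul_apply, hy.sym k _ j]
  simp only [r20, Matrix.sub_apply, Matrix.add_apply]
  rw [a p k j, a k j p, a j p k, b p k j, b k j p, b j p k]
  ring

theorem d20_eq (ev : ∀ᶠ y in 𝓝 z, Hy h ξ A y) (p k i j : Fin n) :
    d20 A h p k z i j = (h z * r20 A k j z) i p := by
  have hy := ev.self_of_nhds
  have as : ∀ p k j, d20 A h p k z i j = -d20 A h p j z i k := fun p k j => by
    have a : dM p (nab A k h) z i j = -dM p (nab A j h) z i k := by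
      rw [dM_apply, dM_apply, ← dz_neg]
      exact dz_congr (ev.mono fun y a => a.asy k i j)
    have b : ∀ k j, (nab A k h z * A p z) i j = -∑ r, (A p z r j • nab A r h z) i k :=
      fun k j => by
        rw [Matrix.mul_apply, ← Finset.sum_neg_distrib]
        exact Finset.sum_congr rfl fun r _ => by
          rw [hy.asy k i r, Matrix.smul_apply, smul_eq_mul]; ring
    simp only [d20, Matrix.sub_apply, Matrix.sum_apply]
    rw [nab.eq_1 A p (nab A k h), nab.eq_1 A p (nab A j h), Matrix.sub_apply, Matrix.sub_apply, a,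
      b k j, b j k]
    ring
  have cm : ∀ p k, d20 A h p k z = d20 A h k p z - h z * r20 A p k z := fun p k => by
    have ex : ∀ p k, dM p (nab A k h) z =
        dM p (dM k h) z - (dM p h z * A k z + h z * dM p (A k) z) := fun p k => by
      rw [← dM_mul hy.sh (hy.sa k), ← dM_sub (hy.sh.dM k) (hy.sh.mul (hy.sa k))]
      rfl
    simp only [d20, hy.sym p _ k]
    rw [nab.eq_1 A p (nab A k h), nab.eq_1 A k (nab A p h), ex, ex, dM_dM hy.sh p k,
      nab.eq_1 A k h, nab.eq_1 A p h, r20]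
    simp only [Matrix.mul_sub, Matrix.mul_add, Matrix.sub_mul, Matrix.mul_assoc]
    abel
  have bi : (h z * r20 A p k z) i j + (h z * r20 A k j z) i p + (h z * r20 A j p z) i k = 0 := by
    simp only [Matrix.mul_apply, ← Finset.sum_add_distrib, ← mul_add, bianchi ev, mul_zero,
      Finset.sum_const_zero]
  have c1 := congrFun (congrFun (cm p k) i) j
  have c2 := congrFun (congrFun (cm k j) i) p
  have c3 := congrFun (congrFun (cm j p) i) k
  rw [Matrix.sub_apply] at c1 c2 c3
  have a1 := as k p j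
  have a2 := as j k p
  have a3 := as p j k
  linear_combination (1 / 2 : ℂ) * (c1 + a1 - c2 - a2 + c3 + a3 - bi)

/-- The covariant Hessian of type `(2,0)` of a function. -/
def n20 (A : Fin n → E n → Mat n) (s : E n → ℂ) (y : E n) : Mat n :=
  Matrix.of fun p k => dz k (dz p s) y - ∑ r, A k y r p * dz r s y

theorem n20_mul (ev : ∀ᶠ y in 𝓝 z, Hy h ξ A y) :
    n20 A (fun y => (ξ y * h y).trace) z * ξ z = 0 := by
  have hy := ev.self_of_nhds
  have sb : ∀ k, SmM (nab A k h) z := fun k => sm_nab hy.sh k (hy.sa k)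
  have e : ∀ p k, n20 A (fun y => (ξ y * h y).trace) z p k = (ξ z * d20 A h k p z).trace := by
    intro p k
    rw [n20, Matrix.of_apply, dz_congr (g := fun y => (ξ y * nab A p h y).trace)
      (ev.mono fun y a => dz_tr a p), dz_trace (hy.sx.mul (sb p)), dM_mul hy.sx (sb p), hy.p1, d20]
    simp only [dz_tr hy, Matrix.mul_sub, Matrix.trace_sub, Matrix.mul_sum, Matrix.trace_sum,
      Matrix.mul_smul, Matrix.trace_smul, smul_eq_mul, Matrix.trace_add, Matrix.neg_mul,
      Matrix.trace_neg]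
    rw [nab.eq_1 A k, Matrix.mul_sub, Matrix.trace_sub, Matrix.mul_assoc,
      Matrix.trace_mul_comm (A k z), Matrix.mul_assoc]
    ring
  ext p m
  have z0 : ∀ j i, ∑ k, (h z * r20 A p j z) i k * ξ z k m = 0 := fun j i => by
    rw [← Matrix.mul_apply, Matrix.mul_assoc, r20_mul ev, Matrix.mul_zero, Matrix.zero_apply]
  rw [Matrix.mul_apply, Matrix.zero_apply]
  simp only [e]
  simp only [Matrix.trace, Matrix.diag, Matrix.mul_apply (M := ξ z), d20_eq ev, Finset.sum_mul]
  rw [Finset.sum_comm]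
  refine Finset.sum_eq_zero fun j _ => ?_
  rw [Finset.sum_comm]
  refine Finset.sum_eq_zero fun i _ => ?_
  simp only [mul_assoc, ← Finset.mul_sum, z0, mul_zero]

theorem par_hess (ev : ∀ᶠ y in 𝓝 z, Hy h ξ A y) (m : Fin n) :
    ∑ k, ξ z k m • nab A k (hess fun y => (ξ y * h y).trace) z = 0 := by
  have hy := ev.self_of_nhds
  set s : E n → ℂ := fun y => (ξ y * h y).trace with hs
  have ss : ContDiffAt ℝ ∞ s z := (hy.sx.mul hy.sh).trace
  have sN : SmM (n20 A s) z := fun p k =>
    (cd_dz (cd_dz ss p) k).sub (ContDiffAt.sum fun r _ => (hy.sa k r p).mul (cd_dz ss r))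
  have N0 := n20_mul ev
  have dN : ∀ l, dMb l (n20 A s) z * ξ z = 0 := fun l => by
    have e : dMb l (fun y => n20 A s y * ξ y) z = 0 := by
      rw [dMb_congr (T := fun _ => 0) (ev.eventually_nhds.mono fun y a => n20_mul a), dMb_const]
    rwa [dMb_mul sN hy.sx, hy.p2, Matrix.mul_neg, ← Matrix.mul_assoc, N0, Matrix.zero_mul,
      neg_zero, add_zero] at e
  ext l p
  have e : ∀ k, nab A k (hess s) z l p =
      dMb l (n20 A s) z p k + ∑ r, dMb l (A p) z r k * dz r s z := fun k => by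
    have a : dMb l (n20 A s) z p k = dzb l (dz k (dz p s)) z -
        ∑ r, (dMb l (A p) z r k * dz r s z + A k z r p * dzb l (dz r s) z) := by
      have b : ∀ r, dzb l (fun y => A k y r p * dz r s y) z =
          dMb l (A p) z r k * dz r s z + A k z r p * dzb l (dz r s) z := fun r => by
        rw [dzb_mul ((hy.sa k).diff r p) (cd_diff (cd_dz ss r)), dMb_apply,
          dzb_congr (g := fun y => A p y r k) (ev.mono fun y a => a.sym k r p)]
      simp only [← b]
      rw [← dzb_sum fun r _ => ((hy.sa k).diff r p).fun_mul (cd_diff (cd_dz ss r))]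
      exact dzb_sub (cd_diff (cd_dz (cd_dz ss p) k))
        (cd_diff (ContDiffAt.sum fun r _ => (hy.sa k r p).mul (cd_dz ss r)))
    have c : dM k (hess s) z l p = dzb l (dz k (dz p s)) z := dz_dzb (cd_dz ss p) k l
    rw [a, nab, Matrix.sub_apply, c, Matrix.mul_apply, Finset.sum_add_distrib]
    simp only [hess_apply, mul_comm (A k z _ p)]
    ring
  have z1 : ∑ k, ξ z k m * dMb l (n20 A s) z p k = 0 := by
    have := congrFun (congrFun (dN l) p) m
    rw [Matrix.mul_apply, Matrix.zero_apply] at this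
    rw [← this]
    exact Finset.sum_congr rfl fun k _ => mul_comm _ _
  have z2 : ∑ k, ξ z k m * ∑ r, dMb l (A p) z r k * dz r s z = 0 := by
    simp only [Finset.mul_sum]
    rw [Finset.sum_comm]
    refine Finset.sum_eq_zero fun r _ => ?_
    have := congrFun (congrFun (hy.tz p l) r) m
    rw [Matrix.mul_apply, Matrix.zero_apply] at this
    calc ∑ k, ξ z k m * (dMb l (A p) z r k * dz r s z)
        = (∑ k, dMb l (A p) z r k * ξ z k m) * dz r s z := by
          rw [Finset.sum_mul]; exact Finset.sum_congr rfl fun k _ => by ring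
      _ = 0 := by rw [this, zero_mul]
  simp only [Matrix.sum_apply, Matrix.smul_apply, smul_eq_mul, e, mul_add, Finset.sum_add_distrib,
    z1, z2, add_zero, Matrix.zero_apply]

theorem lx_hess (ev : ∀ᶠ y in 𝓝 z, Hy h ξ A y) :
    lx ξ A (hess fun y => (ξ y * h y).trace) z = 0 :=
  lx_zero ev.self_of_nhds (smM_hess (ev.self_of_nhds.sx.mul ev.self_of_nhds.sh).trace)
    (ev.eventually_nhds.mono fun _ a => par_hess a)

theorem lx_sub {S T : E n → Mat n} (hS : ∀ᶠ y in 𝓝 z, SmM S y ∧ SmM T y)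
    (hA : ∀ k, SmM (A k) z) (c : ℝ) :
    lx ξ A (fun y => S y - c • T y) z = lx ξ A S z - c • lx ξ A T z := by
  have hz := hS.self_of_nhds
  have rs : ∀ {U : E n → Mat n} {y : E n}, SmM U y → SmM (fun y => c • U y) y := fun a =>
    SmM.rsmul (u := fun _ => c) contDiffAt_const a
  have e : ∀ k, ∀ᶠ y in 𝓝 z,
      nab A k (fun y => S y - c • T y) y = nab A k S y - c • nab A k T y := fun k =>
    hS.mono fun y a => by
      simp only [nab]
      rw [dM_sub a.1 (rs a.2), dM_rsmul c a.2, Matrix.sub_mul, Matrix.smul_mul, smul_sub]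
      abel
  have e2 : ∀ k l, nbb A l (nab A k fun y => S y - c • T y) z =
      nbb A l (nab A k S) z - c • nbb A l (nab A k T) z := fun k l => by
    simp only [nbb]
    rw [dMb_congr (e k), (e k).self_of_nhds,
      dMb_sub (sm_nab hz.1 k (hA k)) (rs (sm_nab hz.2 k (hA k))),
      dMb_rsmul c (sm_nab hz.2 k (hA k)), Matrix.mul_sub, Matrix.mul_smul, smul_sub]
    abel
  simp only [lx, e2, smul_sub, Finset.sum_sub_distrib, Finset.smul_sum, smul_comm c]

/-- The trick of Hamilton at one point. -/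
theorem ham_loc (ev : ∀ᶠ y in 𝓝 z, Hy h ξ A y) (hx : (ξ z).PosSemidef) (hp : (h z).PosDef)
    {c : ℝ} {w : E n} (hw : w ≠ 0)
    (hΦ : ∀ᶠ y in 𝓝 z, (hess (fun y => (ξ y * h y).trace) y - c • h y).PosSemidef)
    (h0 : (hess (fun y => (ξ y * h y).trace) z - c • h z) *ᵥ w = 0) : c = 0 := by
  have hy := ev.self_of_nhds
  have sm : ∀ᶠ y in 𝓝 z, SmM (hess fun y => (ξ y * h y).trace) y ∧ SmM h y :=
    ev.mono fun y a => ⟨smM_hess (a.sx.mul a.sh).trace, a.sh⟩
  have a := mp_loc (ξ := ξ) (A := A)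
    (Φ := fun y => hess (fun y => (ξ y * h y).trace) y - c • h y)
    ((sm.and hΦ).mono fun y a =>
      ⟨a.1.1.sub (SmM.rsmul (u := fun _ => c) contDiffAt_const a.1.2), a.2⟩) hy.sa hx h0
  rw [Matrix.sub_mulVec, sub_eq_zero] at h0
  rw [lx_sub sm hy.sa, lx_hess ev, lx_h ev, zero_sub, Matrix.neg_mulVec, Matrix.smul_mulVec, h0,
    Matrix.smul_mulVec, dotProduct_neg, dotProduct_smul, dotProduct_smul, neg_re, smul_re,
    smul_re, smul_eq_mul, smul_eq_mul] at a
  have b : 0 < (star w ⬝ᵥ h z *ᵥ w).re := (Complex.pos_iff.1 (hp.dotProduct_mulVec_pos hw)).1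
  by_contra hc
  have : 0 < c * (c * (star w ⬝ᵥ h z *ᵥ w).re) := by
    rw [← mul_assoc]
    exact mul_pos (mul_self_pos.2 hc) b
  linarith

end Pool.Agent.Lib.HL59
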